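import Mathlib

set_option autoImplicit false

namespace Pool.Agent.H.MP_f490a9_an

open Set TopologicalSpace

variable {Y : Type} [NormedAddCommGroup Y] [NormedSpace ℝ Y]

/-- sets within distance `1/2` of a separable subspace -/
def Small (A : Set (Y →L[ℝ] ℝ)) : Prop := ∃ G : Set (Y →L[ℝ] ℝ), G.Countable ∧ ∀ f ∈ A,
  ∃ F ⊆ G, F.Finite ∧ ∀ y, (∀ g ∈ F, g y = 0) → |f y| ≤ ‖y‖ / 2

theorem Small.mono {A B : Set (Y →L[ℝ] ℝ)} (h : Small B) (k : A ⊆ B) : Small A :=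
  let ⟨G, a, b⟩ := h
  ⟨G, a, fun f hf => b f (k hf)⟩

theorem Small.iUnion {ι : Type} [Countable ι] {A : ι → Set (Y →L[ℝ] ℝ)} (h : ∀ i, Small (A i)) :
    Small (⋃ i, A i) := by
  choose G a b using h
  refine ⟨⋃ i, G i, countable_iUnion a, fun f hf => ?_⟩
  obtain ⟨i, hi⟩ := mem_iUnion.1 hf
  obtain ⟨F, h1, h2⟩ := b i f hi
  exact ⟨F, h1.trans (subset_iUnion G i), h2⟩

theorem Small.union {A B : Set (Y →L[ℝ] ℝ)} (h : Small A) (k : Small B) : Small (A ∪ B) :=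
  union_eq_iUnion ▸ Small.iUnion fun b => by cases b <;> assumption

theorem small_empty : Small (∅ : Set (Y →L[ℝ] ℝ)) := ⟨∅, countable_empty, fun _ h => h.elim⟩

theorem large_ne {A : Set (Y →L[ℝ] ℝ)} (h : ¬ Small A) : A.Nonempty :=
  nonempty_iff_ne_empty.2 fun e => h (e ▸ small_empty)

theorem large_fin {A F : Set (Y →L[ℝ] ℝ)} (h : ¬ Small A) (hF : F.Finite) :
    ∃ f ∈ A, ∃ y, (∀ g ∈ F, g y = 0) ∧ ‖y‖ / 2 < |f y| := by
  by_contra! k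
  exact h ⟨F, hF.countable, fun f hf => ⟨F, le_rfl, hF, k f hf⟩⟩

theorem ball_large (h : ¬ SeparableSpace (Y →L[ℝ] ℝ)) : ¬ Small {f : Y →L[ℝ] ℝ | ‖f‖ ≤ 1} := by
  rintro ⟨G, h1, h2⟩
  obtain ⟨f, hf⟩ : ∃ f, f ∉ (Submodule.span ℝ G).topologicalClosure := by
    by_contra! k
    exact h (isSeparable_univ_iff.1 ((h1.isSeparable.span (R := ℝ)).closure.mono fun f _ => k f))
  obtain ⟨f, h3, h4⟩ := riesz_lemma (Submodule.isClosed_topologicalClosure _) ⟨f, hf⟩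
    (r := 3 / 4) (by norm_num)
  have h5 : 0 < ‖f‖ := norm_pos_iff.2 fun e => h3 (e ▸ Submodule.zero_mem _)
  obtain ⟨F, h6, h7, h8⟩ := h2 (‖f‖⁻¹ • f) (by simp [norm_smul, h5.ne'])
  let p : Submodule ℝ Y := ⨅ g : F, (g.1 : Y →ₗ[ℝ] ℝ).ker
  obtain ⟨g, h9, h10⟩ := exists_extension_norm_eq p (f.comp p.subtypeL)
  have h11 : ‖g‖ ≤ ‖f‖ / 2 := h10.trans_le (ContinuousLinearMap.opNorm_le_bound _ (by positivity)
    fun y => by
      have := h8 y fun g hg => (Submodule.mem_iInf _).1 y.2 ⟨g, hg⟩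
      rw [smul_apply, smul_eq_mul, abs_mul, abs_inv, abs_norm, inv_mul_le_iff₀ h5] at this
      exact le_of_le_of_eq this (by simp; ring))
  have := h7.to_subtype
  have h12 := mem_span_of_iInf_ker_le_ker (L := fun g : F => (g.1 : Y →ₗ[ℝ] ℝ))
    (K := ((f - g : Y →L[ℝ] ℝ) : Y →ₗ[ℝ] ℝ)) fun y hy => by simpa [sub_eq_zero] using (h9 ⟨y, hy⟩).symm
  have := Fintype.ofFinite F
  obtain ⟨c, hc⟩ := (Submodule.mem_span_range_iff_exists_fun ℝ).1 h12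
  have h13 : f - g = ∑ i : F, c i • i.1 := by
    ext y
    simpa using (LinearMap.congr_fun hc y).symm
  have h14 := h4 (f - g) (Submodule.le_topologicalClosure _ (h13 ▸ Submodule.sum_mem _ fun i _ =>
    Submodule.smul_mem _ _ (Submodule.subset_span (h6 i.2))))
  rw [sub_sub_cancel] at h14
  linarith

variable [SeparableSpace Y]

theorem good {A : Set (Y →L[ℝ] ℝ)} (h : ¬ Small A) :
    ¬ Small {f | f ∈ A ∧ ∀ y, ¬ Small (A ∩ {g | |g y - f y| < 1 / 16})} := by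
  obtain ⟨P, h1, h2, h3⟩ := (IsSeparable.of_separableSpace
    {p : Y × ℝ | Small (A ∩ {g | |g p.1 - p.2| < 1 / 16})}).exists_countable_dense_subset
  have := h2.to_subtype
  refine fun k => h ((k.union (Small.iUnion fun p : P => h1 p.2)).mono fun f hf => ?_)
  refine or_iff_not_imp_left.2 fun hn => ?_
  obtain ⟨y, hy⟩ : ∃ y, Small (A ∩ {g | |g y - f y| < 1 / 16}) := by
    by_contra! k
    exact hn ⟨hf, k⟩
  obtain ⟨p, h4, h5⟩ := mem_closure_iff.1 (h3 (show (y, f y) ∈ _ from hy))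
    {p | |f p.1 - p.2| < 1 / 16} (isOpen_lt (by fun_prop) continuous_const) (by simp)
  exact mem_iUnion.2 ⟨⟨p, h5⟩, hf, h4⟩

theorem step {ι : Type} [Finite ι] [DecidableEq ι] (A : ι → Set (Y →L[ℝ] ℝ))
    (hA : ∀ i, ¬ Small (A i)) (i : ι) : ∃ (B : ι → Set (Y →L[ℝ] ℝ)) (y : Y), ‖y‖ ≤ 2 ∧
      ∀ j, B j ⊆ A j ∧ ¬ Small (B j) ∧ ∀ f ∈ B j, |f y - if i = j then 1 else 0| < 1 / 16 := by
  choose g hg using fun j => large_ne (good (hA j))
  obtain ⟨f, h2, y, h4, h5⟩ := large_fin (good (hA i)) (finite_range g)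
  have h6 : 0 < |f y| := (by positivity : 0 ≤ ‖y‖ / 2).trans_lt h5
  refine ⟨fun j => A j ∩ {k | |k ((f y)⁻¹ • y) - if i = j then 1 else 0| < 1 / 16}, (f y)⁻¹ • y,
    ?_, fun j => ⟨inter_subset_left, ?_, fun _ h => h.2⟩⟩
  · rw [norm_smul, norm_inv, Real.norm_eq_abs, inv_mul_le_iff₀ h6]
    linarith
  · dsimp only
    split_ifs with e
    · have h7 : f ((f y)⁻¹ • y) = 1 := by simp [abs_pos.1 h6]
      have := h2.2 ((f y)⁻¹ • y)
      rwa [h7, e] at this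
    · have h7 : g j ((f y)⁻¹ • y) = 0 := by simp [h4 _ ⟨j, rfl⟩]
      have := (hg j).2 ((f y)⁻¹ • y)
      rwa [h7] at this

theorem steps {ι : Type} [Finite ι] [DecidableEq ι] (A : ι → Set (Y →L[ℝ] ℝ))
    (hA : ∀ i, ¬ Small (A i)) : ∃ (B : ι → Set (Y →L[ℝ] ℝ)) (y : ι → Y), (∀ i, ‖y i‖ ≤ 2) ∧
      ∀ j, B j ⊆ A j ∧ ¬ Small (B j) ∧
        ∀ f ∈ B j, ∀ i, |f (y i) - if i = j then 1 else 0| < 1 / 16 := by
  have : ∀ S : Finset ι, ∃ (B : ι → Set (Y →L[ℝ] ℝ)) (y : ι → Y), (∀ i, ‖y i‖ ≤ 2) ∧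
      ∀ j, B j ⊆ A j ∧ ¬ Small (B j) ∧
        ∀ f ∈ B j, ∀ i ∈ S, |f (y i) - if i = j then 1 else 0| < 1 / 16 := by
    intro S
    induction S using Finset.induction_on with
    | empty => exact ⟨A, 0, by simp, fun j => ⟨le_rfl, hA j, by simp⟩⟩
    | insert a S _ ih =>
      obtain ⟨B, y, h1, h2⟩ := ih
      obtain ⟨C, z, h3, h4⟩ := step B (fun j => (h2 j).2.1) a
      refine ⟨C, Function.update y a z, fun i => ?_, fun j => ⟨(h4 j).1.trans (h2 j).1, (h4 j).2.1,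
        fun f hf i hi => ?_⟩⟩ <;> by_cases e : i = a
      · simpa [e]
      · simpa [e] using h1 i
      · simpa [e] using (h4 j).2.2 f hf
      · simpa [e] using (h2 j).2.2 f ((h4 j).1 hf) i ((Finset.mem_insert.1 hi).resolve_left e)
  have _ := Fintype.ofFinite ι
  simpa using this Finset.univ

theorem tree (h : ¬ SeparableSpace (Y →L[ℝ] ℝ)) :
    ∃ y : ∀ n : ℕ, (Fin (n + 1) → Bool) → Y, (∀ n s, ‖y n s‖ ≤ 2) ∧ ∀ (t : ℕ → Bool) (N : ℕ),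
      ∃ f : Y →L[ℝ] ℝ, ‖f‖ ≤ 1 ∧ ∀ n < N, ∀ s,
        |f (y n s) - if s = fun i => t i.1 then 1 else 0| ≤ 1 / 16 := by
  choose F H h1 h2 using fun (n : ℕ) (A : {A : (Fin n → Bool) → Set (Y →L[ℝ] ℝ) //
    ∀ s, ¬ Small (A s)}) => steps (fun s : Fin (n + 1) → Bool => A.1 (Fin.init s)) fun s => A.2 _
  let D : ∀ n, {A : (Fin n → Bool) → Set (Y →L[ℝ] ℝ) // ∀ s, ¬ Small (A s)} := fun n =>
    Nat.rec ⟨fun _ => {f | ‖f‖ ≤ 1}, fun _ => ball_large h⟩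
      (fun n A => ⟨F n A, fun s => (h2 n A s).2.1⟩) n
  refine ⟨fun n => H n (D n), fun n => h1 n _, fun t N => ?_⟩
  have h3 : Antitone fun n => (D n).1 fun i => t i.1 :=
    antitone_nat_of_succ_le fun n => (h2 n (D n) _).1
  obtain ⟨f, hf⟩ := large_ne ((D N).2 fun i => t i.1)
  exact ⟨f, h3 (Nat.zero_le N) hf, fun n hn s => ((h2 n (D n) _).2.2 f (h3 hn hf) s).le⟩

end Pool.Agent.H.MP_f490a9_an
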