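import Pool.Agent.H.MP_f490a9_an.A

set_option autoImplicit false

namespace Pool.Agent.H.MP_f490a9_an

open Set TopologicalSpace

variable {X : Type} [NormedAddCommGroup X] [NormedSpace ℝ X]

theorem cont_res (n : ℕ) : Continuous fun (t : ℕ → Bool) (i : Fin n) => t i.1 := by fun_prop

theorem irred {E : Type} [TopologicalSpace E] [T2Space E] {K : Set E} (hK : IsCompact K)
    {π : E → ℕ → Bool} (hπ : Continuous π) (h : π '' K = univ) : ∃ C ⊆ K, IsCompact C ∧
      π '' C = univ ∧ ∀ O, IsOpen O → (O ∩ C).Nonempty →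
        ∃ a ∈ O ∩ C, ∃ b ∈ O ∩ C, π a ≠ π b := by
  suffices H : ∃ C, C ⊆ K ∧ Minimal (· ∈ {C | IsCompact C ∧ π '' C = univ}) C by
    obtain ⟨C, h1, h2⟩ := H
    refine ⟨C, h1, h2.1.1, h2.1.2, fun O hO ⟨z, hz⟩ => ?_⟩
    by_contra! k
    have h3 : IsCompact (C \ O) := h2.1.1.diff hO
    have h4 : π '' (C \ O) ≠ univ := fun e => (h2.2 ⟨h3, e⟩ sdiff_subset hz.2).2 hz.1
    have h5 : ∀ t, t ∉ π '' (C \ O) → t = π z := fun t ht => by
      obtain ⟨a, ha, rfl⟩ := h2.1.2 ▸ mem_univ t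
      exact k a ⟨by_contra fun h' => ht ⟨a, ⟨ha, h'⟩, rfl⟩, ha⟩ z hz
    obtain ⟨t, ht⟩ := (ne_univ_iff_exists_notMem _).1 h4
    obtain ⟨I, u, h6, h7⟩ := isOpen_pi_iff.1 (h3.image hπ).isClosed.isOpen_compl t ht
    obtain ⟨n, hn⟩ := I.exists_notMem
    have h8 := h5 (Function.update t n (!t n)) (h7 fun i hi => by
      rw [Function.update_of_ne (by rintro rfl; exact hn hi)]
      exact (h6 i hi).2)
    simpa using congrFun (h8.trans (h5 t ht).symm) n
  refine zorn_superset_nonempty {C | IsCompact C ∧ π '' C = univ} (fun c hc hc' hne =>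
    ⟨⋂₀ c, ⟨?_, ?_⟩, fun s hs => sInter_subset_of_mem hs⟩) K ⟨hK, h⟩
  · obtain ⟨s, hs⟩ := hne
    exact (hc hs).1.of_isClosed_subset (isClosed_sInter fun s hs => (hc hs).1.isClosed)
      (sInter_subset_of_mem hs)
  · refine eq_univ_of_forall fun t => ?_
    have := hne.to_subtype
    obtain ⟨z, hz⟩ := IsCompact.nonempty_iInter_of_directed_nonempty_isCompact_isClosed
      (fun s : c => s.1 ∩ π ⁻¹' {t}) (fun a b => by
        rcases hc'.total a.2 b.2 with h | h
        · exact ⟨a, le_rfl, inter_subset_inter_left _ h⟩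
        · exact ⟨b, inter_subset_inter_left _ h, le_rfl⟩)
      (fun s => by
        obtain ⟨a, ha, e⟩ := (hc s.2).2 ▸ mem_univ t
        exact ⟨a, ha, e⟩)
      (fun s => (hc s.2).1.inter_right (isClosed_singleton.preimage hπ))
      fun s => (hc s.2).1.isClosed.inter (isClosed_singleton.preimage hπ)
    exact ⟨z, fun s hs => (mem_iInter.1 hz ⟨s, hs⟩).1, (mem_iInter.1 hz this.some).2⟩

theorem ex_C (Y : Submodule ℝ X) [SeparableSpace Y] (h : ¬ SeparableSpace (Y →L[ℝ] ℝ)) :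
    ∃ (y : ∀ n : ℕ, (Fin (n + 1) → Bool) → X) (C : Set (WeakDual ℝ X × (ℕ → Bool))),
      (∀ n s, ‖y n s‖ ≤ 2) ∧ IsCompact C ∧ Prod.snd '' C = univ ∧
      (∀ O, IsOpen O → (O ∩ C).Nonempty → ∃ a ∈ O ∩ C, ∃ b ∈ O ∩ C, a.2 ≠ b.2) ∧
      ∀ z ∈ C, (∀ x, |z.1 x| ≤ ‖x‖) ∧
        ∀ n s, |z.1 (y n s) - if s = fun i => z.2 i.1 then 1 else 0| ≤ 1 / 16 := by
  obtain ⟨y, h1, h2⟩ := tree h
  let K : ℕ → Set (WeakDual ℝ X × (ℕ → Bool)) := fun N => {z | (∀ x, |z.1 x| ≤ ‖x‖) ∧
    ∀ n < N, ∀ s, |z.1 (y n s) - if s = fun i => z.2 i.1 then 1 else 0| ≤ 1 / 16}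
  have e1 : ∀ x, Continuous fun z : WeakDual ℝ X × (ℕ → Bool) => z.1 x := fun x =>
    (WeakDual.eval_continuous x).comp continuous_fst
  have c1 : ∀ N, IsClosed (K N) := fun N => by
    simp only [K, ofPred_and, ofPred_forall]
    refine (isClosed_iInter fun x => isClosed_le (e1 x).abs continuous_const).inter
      (isClosed_iInter fun n => isClosed_iInter fun _ => isClosed_iInter fun s =>
        isClosed_le ((e1 _).sub ?_).abs continuous_const)
    exact (continuous_of_discreteTopology (f := fun u => if s = u then (1 : ℝ) else 0)).comp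
      ((cont_res _).comp continuous_snd)
  have c2 : ∀ N, IsCompact (K N) := fun N =>
    ((WeakDual.isCompact_closedBall (𝕜 := ℝ) (E := X) 0 1).prod isCompact_univ).of_isClosed_subset
      (c1 N) fun z hz => ⟨by
        simpa using ContinuousLinearMap.opNorm_le_bound (WeakDual.toStrongDual z.1) zero_le_one
          fun x => by simpa using hz.1 x, trivial⟩
  obtain ⟨C, h3, h4⟩ := irred ((c2 0).of_isClosed_subset (isClosed_iInter c1) (iInter_subset _ _))
    continuous_snd (eq_univ_of_forall fun t => by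
      obtain ⟨z, hz⟩ := IsCompact.nonempty_iInter_of_sequence_nonempty_isCompact_isClosed
        (fun N => K N ∩ Prod.snd ⁻¹' {t})
        (fun N z hz => ⟨⟨hz.1.1, fun n hn => hz.1.2 n (by omega)⟩, hz.2⟩) (fun N => by
          obtain ⟨f, a, b⟩ := h2 t N
          obtain ⟨g, c, d⟩ := exists_extension_norm_eq Y f
          refine ⟨(StrongDual.toWeakDual g, t), ⟨fun x => ?_, fun n hn s => ?_⟩, rfl⟩
          · exact (g.le_opNorm x).trans (mul_le_of_le_one_left (norm_nonneg _) (d ▸ a))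
          · exact (c _ : g (y n s) = _) ▸ b n hn s)
        ((c2 0).inter_right (isClosed_singleton.preimage continuous_snd))
        fun N => (c1 N).inter (isClosed_singleton.preimage continuous_snd)
      exact ⟨z, mem_iInter.2 fun N => (mem_iInter.1 hz N).1, (mem_iInter.1 hz 0).2⟩)
  exact ⟨fun n s => y n s, C, h1, h4.1, h4.2.1, h4.2.2, fun z hz =>
    ⟨(mem_iInter.1 (h3 hz) 0).1, fun n => (mem_iInter.1 (h3 hz) (n + 1)).2 n (by omega)⟩⟩

theorem ex_phi : ∃ φ : (ℕ → Bool) → ℝ, Continuous φ ∧ Function.Injective φ ∧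
    ∀ t, 0 ≤ φ t ∧ φ t ≤ 1 :=
  ⟨fun t => cantorSetHomeomorphNatToBool.symm t, by fun_prop,
    Subtype.val_injective.comp cantorSetHomeomorphNatToBool.symm.injective,
    fun t => cantorSet_subset_unitInterval (cantorSetHomeomorphNatToBool.symm t).2⟩

end Pool.Agent.H.MP_f490a9_an
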