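import Pool.Agent.H.MP_f490a9_an.B

set_option autoImplicit false

namespace Pool.Agent.H.MP_f490a9_an

open Set TopologicalSpace

variable {X : Type} [NormedAddCommGroup X] [NormedSpace ℝ X]

variable (X) in
/-- parameter space -/
abbrev EE : Type := WeakDual ℝ X × (ℕ → Bool)

theorem main (Y : Submodule ℝ X) [SeparableSpace Y] (h : ¬ SeparableSpace (Y →L[ℝ] ℝ)) :
    ∃ N : Seminorm ℝ X,
      (∃ a b : ℝ, 0 < a ∧ 0 < b ∧ ∀ x : X, a * ‖x‖ ≤ N x ∧ N x ≤ b * ‖x‖) ∧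
      ∀ x : X, x ≠ 0 →
        ¬ ∃ D : X → ℝ, ∀ ε : ℝ, 0 < ε → ∃ δ : ℝ, 0 < δ ∧
            ∀ h : X, ‖h‖ ≤ 1 → ∀ t : ℝ, 0 < t → t < δ →
              |(N (x + t • h) - N x) / t - D h| < ε := by
  obtain ⟨y, C, hy, hC, hs, hO, hz⟩ := ex_C Y h
  obtain ⟨φ, φc, φi, φb⟩ := ex_phi
  let Q : Set (EE X × EE X) := C ×ˢ C ∩ {q | q.1.2 0 ≠ q.2.2 0}
  have hcl : IsClopen {q : EE X × EE X | q.1.2 0 ≠ q.2.2 0} :=
    (isClopen_discrete {p : Bool × Bool | p.1 ≠ p.2}).preimage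
      (f := fun q : EE X × EE X => (q.1.2 0, q.2.2 0)) (by fun_prop)
  have hQ : IsCompact Q := (hC.prod hC).inter_right hcl.1
  have hQn : Q.Nonempty := by
    obtain ⟨a, ha, e1⟩ := hs ▸ mem_univ (fun _ => true)
    obtain ⟨b, hb, e2⟩ := hs ▸ mem_univ (fun _ => false)
    exact ⟨(a, b), ⟨ha, hb⟩, by simp [e1, e2]⟩
  have hsw : ∀ q ∈ Q, q.swap ∈ Q := fun q hq => ⟨⟨hq.1.2, hq.1.1⟩, Ne.symm hq.2⟩
  obtain ⟨w, hw⟩ : ∃ w : EE X × EE X → ℝ, w = fun q => (1 + φ q.1.2 * φ q.2.2) / 100 := ⟨_, rfl⟩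
  have w1 : ∀ q, 1 / 100 ≤ w q ∧ w q ≤ 2 / 100 := fun q => by
    have := φb q.1.2
    have := φb q.2.2
    rw [hw]
    constructor <;> nlinarith
  have w2 : ∀ q, w q.swap = w q := fun q => by simp [hw, mul_comm]
  let v : X → EE X × EE X → ℝ := fun x q => q.1.1 x - q.2.1 x + w q * ‖x‖
  have vc : ∀ x, Continuous (v x) := fun x => by
    have := WeakDual.eval_continuous (𝕜 := ℝ) x
    simp only [v, hw]
    exact ((this.comp (by fun_prop)).sub (this.comp (by fun_prop))).add (by fun_prop)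
  choose m m1 m2 using fun x => hQ.exists_isMaxOn hQn (vc x).continuousOn
  replace m2 : ∀ x, ∀ q ∈ Q, v x q ≤ v x (m x) := fun x q hq => m2 x hq
  have bd : ∀ q ∈ Q, ∀ x, q.1.1 x - q.2.1 x ≤ 2 * ‖x‖ := fun q hq x => by
    linarith [(abs_le.1 ((hz _ hq.1.1).1 x)).2, (abs_le.1 ((hz _ hq.1.2).1 x)).1]
  refine ⟨Seminorm.ofSMulLE (fun x => v x (m x)) (by simp [v]) (fun a b => ?_) fun r x => ?_,
    ⟨1 / 100, 3, by norm_num, by norm_num, fun x => ⟨?_, ?_⟩⟩, ?_⟩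
  · have := mul_le_mul_of_nonneg_left (norm_add_le a b)
      (by linarith [w1 (m (a + b))] : 0 ≤ w (m (a + b)))
    have h1 := m2 a _ (m1 (a + b))
    have h2 := m2 b _ (m1 (a + b))
    simp only [v, map_add] at *
    linarith
  · rcases le_total 0 r with hr | hr
    · have := mul_le_mul_of_nonneg_left (m2 x _ (m1 (r • x))) hr
      simp only [v, map_smul, norm_smul, Real.norm_of_nonneg hr, smul_eq_mul] at *
      linarith
    · have := mul_le_mul_of_nonneg_left (m2 x _ (hsw _ (m1 (r • x)))) (neg_nonneg.2 hr)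
      simp only [v, map_smul, norm_smul, Real.norm_of_nonpos hr, smul_eq_mul, w2, Prod.fst_swap,
        Prod.snd_swap] at *
      linarith
  · have h1 := m2 x _ (hsw _ (m1 x))
    have h2 := mul_le_mul_of_nonneg_right (w1 (m x)).1 (norm_nonneg x)
    change _ ≤ v x (m x)
    simp only [v, w2, Prod.fst_swap, Prod.snd_swap] at *
    linarith
  · have h1 := bd _ (m1 x) x
    have h2 := mul_le_mul_of_nonneg_right (w1 (m x)).2 (norm_nonneg x)
    change v x (m x) ≤ _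
    simp only [v]
    linarith [norm_nonneg x]
  rintro x hx ⟨D, hD⟩
  obtain ⟨δ, hδ, hD⟩ := hD (1 / 100) (by norm_num)
  change ∀ h : X, _ → ∀ t : ℝ, _ → _ → |(v _ (m _) - v x (m x)) / t - _| < _ at hD
  have c1 : ∃ q ∈ Q, v x (m x) - δ / 200 < v x q ∧
      ∀ p ∈ Q, v x p = v x (m x) → ¬ (p.1.2 = q.1.2 ∧ p.2.2 = q.2.2) := by
    by_contra! k
    obtain ⟨U, V, hU, hV, h1, h2, h3⟩ := isOpen_prod_iff.1
      (hcl.2.inter (isOpen_lt continuous_const (vc x) (f := fun _ => v x (m x) - δ / 200)))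
      (m x).1 (m x).2 ⟨(m1 x).2, by simpa using hδ⟩
    obtain ⟨a, ha, a', ha', ne1⟩ := hO U hU ⟨_, h1, (m1 x).1.1⟩
    obtain ⟨b, hb, b', hb', ne2⟩ := hO V hV ⟨_, h2, (m1 x).1.2⟩
    have key : ∀ a ∈ U ∩ C, ∀ a' ∈ U ∩ C, ∀ b ∈ V ∩ C, ∀ b' ∈ V ∩ C,
        0 ≤ (φ a.2 - φ a'.2) * (φ b.2 - φ b'.2) := by
      intro a ha a' ha' b hb b' hb'
      have r : ∀ a ∈ U ∩ C, ∀ b ∈ V ∩ C, _ := fun a ha b hb => h3 (mk_mem_prod ha.1 hb.1)
      obtain ⟨p, p1, p2, p3, p4⟩ := k (a, b) ⟨⟨ha.2, hb.2⟩, (r a ha b hb).1⟩ (r a ha b hb).2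
      obtain ⟨q, q1, q2, q3, q4⟩ := k (a', b') ⟨⟨ha'.2, hb'.2⟩, (r a' ha' b' hb').1⟩
        (r a' ha' b' hb').2
      have s1 := m2 x (p.1, q.2) ⟨⟨p1.1.1, q1.1.2⟩, by simpa [p3, q4] using (r a ha b' hb').1⟩
      have s2 := m2 x (q.1, p.2) ⟨⟨q1.1.1, p1.1.2⟩, by simpa [q3, p4] using (r a' ha' b hb).1⟩
      rw [← p2] at s1
      rw [← q2] at s2
      simp only [v, hw, p3, p4, q3, q4] at s1 s2
      exact nonneg_of_mul_nonneg_left (b := ‖x‖) (by nlinarith) (norm_pos_iff.2 hx)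
    have := le_antisymm (by nlinarith [key a ha a' ha' b' hb' b hb]) (key a ha a' ha' b hb b' hb')
    exact mul_ne_zero (sub_ne_zero.2 (φi.ne ne1)) (sub_ne_zero.2 (φi.ne ne2)) this
  obtain ⟨q, q1, q2, q3⟩ := c1
  let R : ℕ → Set (EE X × EE X) := fun n => Q ∩ {p | ((fun i : Fin (n + 1) => q.1.2 i.1) = fun i => p.1.2 i.1) ∧
    (fun i : Fin (n + 1) => q.2.2 i.1) = fun i => p.2.2 i.1}
  have Rc : ∀ n, IsCompact (R n) := fun n => hQ.inter_right
    ((isClosed_eq continuous_const (by fun_prop)).inter (isClosed_eq continuous_const (by fun_prop)))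
  obtain ⟨n, hn⟩ : ∃ n, ∀ p ∈ R n, v x p ≠ v x (m x) := by
    by_contra! k
    have cl := isClosed_eq (vc x) (continuous_const (y := v x (m x)))
    obtain ⟨p, hp⟩ := IsCompact.nonempty_iInter_of_sequence_nonempty_isCompact_isClosed
      (fun n => R n ∩ {p | v x p = v x (m x)}) (fun n p hp => ⟨⟨hp.1.1,
        funext fun i => congrFun hp.1.2.1 i.castSucc, funext fun i => congrFun hp.1.2.2 i.castSucc⟩,
        hp.2⟩) k ((Rc 0).inter_right cl) fun n => (Rc n).isClosed.inter cl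
    rw [mem_iInter] at hp
    exact q3 p (hp 0).1.1 (hp 0).2 ⟨funext fun i => (congrFun (hp i).1.2.1 (Fin.last i)).symm,
      funext fun i => (congrFun (hp i).1.2.2 (Fin.last i)).symm⟩
  obtain ⟨r, r1, r2⟩ := (Rc n).exists_isMaxOn ⟨q, q1, rfl, rfl⟩ (vc x).continuousOn
  have r3 := (m2 x r r1.1).lt_of_ne (hn r r1)
  set s : Fin (n + 1) → Bool := fun i => q.1.2 i.1
  set s' : Fin (n + 1) → Bool := fun i => q.2.2 i.1
  have ss : s ≠ s' := fun e => q1.2 (congrFun e 0)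
  set g := (1 / 4 : ℝ) • (y n s - y n s') with hg
  have g1 : ‖g‖ ≤ 1 := by
    rw [hg, norm_smul, Real.norm_of_nonneg (by norm_num)]
    linarith [norm_sub_le (y n s) (y n s'), hy n s, hy n s']
  have g2 : ∀ p : EE X × EE X, p.1.1 g - p.2.1 g =
      (p.1.1 (y n s) - p.1.1 (y n s') - p.2.1 (y n s) + p.2.1 (y n s')) / 4 := fun p => by
    simp only [hg, map_smul, map_sub, smul_eq_mul]
    ring
  have g3 : ∀ p t, 0 < t → |v (x + t • g) p - v x p - t * (p.1.1 g - p.2.1 g)| ≤ t * (2 / 100) := by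
    intro p t ht
    have a1 : |‖x + t • g‖ - ‖x‖| ≤ t := (abs_norm_sub_norm_le _ _).trans (by
      rw [add_sub_cancel_left, norm_smul, Real.norm_of_nonneg ht.le]
      exact mul_le_of_le_one_right ht.le g1)
    have a2 : v (x + t • g) p - v x p - t * (p.1.1 g - p.2.1 g) = w p * (‖x + t • g‖ - ‖x‖) := by
      simp only [v, map_add, map_smul, smul_eq_mul]
      ring
    rw [a2, abs_mul, abs_of_nonneg (by linarith [w1 p]), mul_comm]
    exact mul_le_mul a1 (w1 p).2 (by linarith [w1 p]) ht.le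
  have l1 : 7 / 16 ≤ q.1.1 g - q.2.1 g := by
    have a1 := abs_le.1 ((hz _ q1.1.1).2 n s)
    have a2 := abs_le.1 ((hz _ q1.1.1).2 n s')
    have a3 := abs_le.1 ((hz _ q1.1.2).2 n s)
    have a4 := abs_le.1 ((hz _ q1.1.2).2 n s')
    rw [if_pos rfl] at a1 a4
    rw [if_neg ss.symm] at a2
    rw [if_neg ss] at a3
    rw [g2]
    linarith
  have l2 : ∀ p ∈ Q, p ∉ R n → p.1.1 g - p.2.1 g ≤ 5 / 16 := fun p hp hp' => by
    have a1 := abs_le.1 ((hz _ hp.1.1).2 n s)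
    have a2 := abs_le.1 ((hz _ hp.1.1).2 n s')
    have a3 := abs_le.1 ((hz _ hp.1.2).2 n s)
    have a4 := abs_le.1 ((hz _ hp.1.2).2 n s')
    rw [g2]
    split_ifs at a1 a2 a3 a4 <;> first | linarith | exact absurd ⟨hp, ‹_›, ‹_›⟩ hp'
  have u1 := abs_lt.1 (hD g g1 (δ / 2) (by positivity) (by linarith))
  obtain ⟨t, t0, t1, t2⟩ : ∃ t, 0 < t ∧ t < δ ∧ t * 3 ≤ v x (m x) - v x r :=
    ⟨min (δ / 2) ((v x (m x) - v x r) / 3), lt_min (by positivity) (by linarith),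
      (min_le_left _ _).trans_lt (by linarith), by linarith [min_le_right (δ / 2) ((v x (m x) - v x r) / 3)]⟩
  have u2 := abs_lt.1 (hD g g1 t t0 t1)
  have u3 : 7 / 16 - 3 / 100 ≤ (v (x + (δ / 2) • g) (m (x + (δ / 2) • g)) - v x (m x)) / (δ / 2) := by
    rw [le_div_iff₀ (by positivity)]
    have := abs_le.1 (g3 q (δ / 2) (by positivity))
    nlinarith [m2 (x + (δ / 2) • g) q q1]
  have u4 : (v (x + t • g) (m (x + t • g)) - v x (m x)) / t ≤ 5 / 16 + 2 / 100 := by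
    rw [div_le_iff₀ t0]
    have := abs_le.1 (g3 (m (x + t • g)) t t0)
    by_cases hm : m (x + t • g) ∈ R n
    · have a1 : v x (m (x + t • g)) ≤ v x r := r2 hm
      nlinarith [bd _ (m1 (x + t • g)) g]
    · nlinarith [l2 _ (m1 _) hm, m2 x _ (m1 (x + t • g))]
  linarith

end Pool.Agent.H.MP_f490a9_an
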